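import Pool.Agent.V11327.FTfinal

/-!
# The hub masses of the random friend tree sum to one

Let `Φ` count the vertices of degree at least `3` with weight `1` and those of degree `2` with weight
`5/6`. Its expectation grows at most like `Π (1 + 5 / (6 n))`. The excess degree `R` of the vertices that
arrived after time `m` satisfies `E R_{n+1} ≤ (1 + 1/n) E R_n + (2/n) E X_n`, so `E R_n / n` is small when
`m` is large, while `D_n (v) / n` converges for every `v` by supermartingale convergence.
-/

set_option autoImplicit false

open MeasureTheory
open Pool.Agent.V11327.FT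

namespace Pool.Agent.Results.MP_29c4b2_pr.HubMass

/-- In the random friend tree almost surely `∑ Z_v = 1`, where `Z_v = liminf D_n (v) / n`. -/
theorem result {Ω : Type} [mΩ : MeasurableSpace Ω] (P : Measure Ω) [IsProbabilityMeasure P]
    (ℱ : Filtration ℕ mΩ) (V W : ℕ → Ω → ℕ) (h : IsFriendTree P ℱ V W) :
    ∀ᵐ ω ∂P, HasSum (fun v => Z W v ω) 1 :=
  main h

end Pool.Agent.Results.MP_29c4b2_pr.HubMass
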